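import Mathlib
import Pool.Agent.helper95.TFWS.Scale

/-!
# MP_3f6894_mp: the critical electron number of a TFW molecule exceeds the nuclear charge

For `p = 5/3`, all numbers `k ≥ 1` of nuclei, all charges `z i > 0`, all positions `R i` and all constants
`c₁, c₂ > 0` in front of the first two terms of the Thomas–Fermi–von Weizsäcker functional
`c₁ ∫ |∇√ρ|² + (3/5) c₂ ∫ ρ^(5/3) - ∫ V ρ + D(ρ, ρ)`, the critical number `λ_c` (the supremum of the masses for which the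
constrained minimum is attained) is larger than the total charge `Z`.
-/

set_option autoImplicit false

open MeasureTheory Filter Topology

namespace Pool.Agent.Results.MP_3f6894_mp.CriticalNumber

/-- Three dimensional Euclidean space. -/
abbrev E := EuclideanSpace ℝ (Fin 3)

/-- `g` is the weak gradient of `u`. -/
def IsWeakGrad (u : E → ℝ) (g : E → E) : Prop :=
  ∀ φ : E → ℝ, ContDiff ℝ (⊤ : ℕ∞) φ → HasCompactSupport φ →
    ∀ v : E, ∫ x, u x * fderiv ℝ φ x v = -∫ x, inner ℝ (g x) v * φ x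

/-- The admissible densities of problem (I), `p = 5/3`: `ρ ≥ 0`, `ρ ∈ L¹ ∩ L^(5/3)`, `√ρ` has the weak gradient `g ∈ L²`. -/
structure Admissible (ρ : E → ℝ) (g : E → E) : Prop where
  nonneg : ∀ x, 0 ≤ ρ x
  integrable : Integrable ρ
  integrable_rpow : Integrable (fun x => ρ x ^ (5 / 3 : ℝ))
  memLp : MemLp g 2
  weakGrad : IsWeakGrad (fun x => Real.sqrt (ρ x)) g

/-- The functional
`c₁ ∫ |g|² + c₂ (3/5) ∫ ρ^(5/3) - ∫ V ρ + (1/2) ∫∫ ρ(x) ρ(y) / |x - y|`, `V(x) = ∑ z_i / |x - R_i|`, `g = ∇√ρ`. -/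
noncomputable def energy (c₁ c₂ : ℝ) {k : ℕ} (z : Fin k → ℝ) (R : Fin k → E) (ρ : E → ℝ) (g : E → E) : ℝ :=
  c₁ * (∫ x, ‖g x‖ ^ 2) + c₂ * ((3 / 5 : ℝ) * ∫ x, ρ x ^ (5 / 3 : ℝ))
    - (∫ x, (∑ i, z i / ‖x - R i‖) * ρ x) + (1 / 2 : ℝ) * (∫ x, ∫ y, ρ x * ρ y / ‖x - y‖)

/-- Problem (I) with the constraint `∫ ρ = lam` has a solution: the minimum is attained. -/
def HasSolution (c₁ c₂ : ℝ) {k : ℕ} (z : Fin k → ℝ) (R : Fin k → E) (lam : ℝ) : Prop :=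
  ∃ ρ g, Admissible ρ g ∧ ∫ x, ρ x = lam ∧
    ∀ σ h, Admissible σ h → ∫ x, σ x = lam → energy c₁ c₂ z R ρ g ≤ energy c₁ c₂ z R σ h

/-- The critical number `λ_c`: the supremum (in `[-∞, ∞]`) of all `lam > 0` for which (I) has a solution. -/
noncomputable def criticalNumber (c₁ c₂ : ℝ) {k : ℕ} (z : Fin k → ℝ) (R : Fin k → E) : EReal :=
  sSup {x : EReal | ∃ lam : ℝ, 0 < lam ∧ HasSolution c₁ c₂ z R lam ∧ x = (lam : EReal)}

theorem toAdm {ρ : E → ℝ} {g : E → E} (h : Admissible ρ g) : Pool.Agent.Helper99.TFW.Adm ρ g :=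
  ⟨h.nonneg, h.integrable, h.integrable_rpow, h.memLp, h.weakGrad⟩

theorem ofAdm {ρ : E → ℝ} {g : E → E} (h : Pool.Agent.Helper99.TFW.Adm ρ g) : Admissible ρ g :=
  ⟨h.nn, h.int, h.int53, h.memg, h.wg⟩

open Pool.Agent.helper95.TFWS in
/-- the scaling of the functional -/
theorem energy_scale {c₁ c₂ a b s : ℝ} (hs : 0 < s) (hb : 0 < b) (ha : a = s ^ 3)
    (h1 : a * b ^ 4 = c₁) (h2 : c₂ * s ^ 2 * b ^ 2 = c₁) (hc : 0 < c₁) {k : ℕ} (z : Fin k → ℝ) (R : Fin k → E)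
    {ρ : E → ℝ} {g : E → E} (hρ : ∀ x, 0 ≤ ρ x) :
    energy c₁ c₂ z R (sr a b ρ) (sg a b g) =
      (c₁ * a * b) * Pool.Agent.Helper99.TFW.energy (fun i => z i * (b / c₁)) (fun i => b⁻¹ • R i) ρ g := by
  have ha0 : 0 < a := by rw [ha]; positivity
  have hb0 : b ≠ 0 := hb.ne'
  have eK : ∫ x, ‖sg a b g x‖ ^ 2 = a * b * ∫ x, ‖g x‖ ^ 2 := by
    have e' : ∫ x, ‖sg a b g x‖ ^ 2 = ∫ x, (Real.sqrt a * b⁻¹) ^ 2 * ‖g (b⁻¹ • x)‖ ^ 2 := by
      congr 1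
      funext x
      unfold sg
      rw [norm_smul, mul_pow, Real.norm_eq_abs, sq_abs]
    refine e'.trans ((covc hb ((Real.sqrt a * b⁻¹) ^ 2) (fun x => ‖g x‖ ^ 2)).trans ?_)
    rw [mul_pow, Real.sq_sqrt ha0.le]
    field_simp
  have eT : ∫ x, sr a b ρ x ^ (5 / 3 : ℝ) = s ^ 5 * b ^ 3 * ∫ x, ρ x ^ (5 / 3 : ℝ) := by
    have e' : ∫ x, sr a b ρ x ^ (5 / 3 : ℝ) = ∫ x, s ^ 5 * ρ (b⁻¹ • x) ^ (5 / 3 : ℝ) := by
      congr 1
      funext x
      unfold sr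
      rw [Real.mul_rpow ha0.le (hρ _), ha, ← Real.rpow_natCast s 3, ← Real.rpow_mul hs.le]
      norm_num
    refine e'.trans ((covc hb (s ^ 5) (fun x => ρ x ^ (5 / 3 : ℝ))).trans ?_)
    ring
  have eV : ∫ x, (∑ i, z i / ‖x - R i‖) * sr a b ρ x =
      (c₁ * a * b) * ∫ x, (∑ i, z i * (b / c₁) / ‖x - b⁻¹ • R i‖) * ρ x := by
    have e' : ∫ x, (∑ i, z i / ‖x - R i‖) * sr a b ρ x = ∫ x, (c₁ * a / b ^ 2) *
        ((∑ i, z i * (b / c₁) / ‖b⁻¹ • x - b⁻¹ • R i‖) * ρ (b⁻¹ • x)) := by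
      congr 1
      funext x
      unfold sr
      have e2 : ∑ i, z i * (b / c₁) / ‖b⁻¹ • x - b⁻¹ • R i‖ = (b ^ 2 / c₁) * ∑ i, z i / ‖x - R i‖ := by
        rw [Finset.mul_sum]
        refine Finset.sum_congr rfl fun i _ => ?_
        rw [← smul_sub, norm_smul, Real.norm_eq_abs, abs_of_pos (inv_pos.2 hb)]
        rcases eq_or_ne ‖x - R i‖ 0 with h0 | h0
        · rw [h0]; simp
        · field_simp
      rw [e2]
      field_simp
    refine e'.trans ((covc hb (c₁ * a / b ^ 2)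
      (fun x => (∑ i, z i * (b / c₁) / ‖x - b⁻¹ • R i‖) * ρ x)).trans ?_)
    field_simp
  have eD : ∫ x, ∫ y, sr a b ρ x * sr a b ρ y / ‖x - y‖ =
      (a ^ 2 * b ^ 5) * ∫ x, ∫ y, ρ x * ρ y / ‖x - y‖ := by
    have e' : ∫ x, ∫ y, sr a b ρ x * sr a b ρ y / ‖x - y‖ =
        ∫ x, (a ^ 2 * b ^ 2) * ∫ y, ρ (b⁻¹ • x) * ρ y / ‖b⁻¹ • x - y‖ := by
      congr 1
      funext x
      have f' : ∫ y, sr a b ρ x * sr a b ρ y / ‖x - y‖ =
          ∫ y, (a ^ 2 / b) * (ρ (b⁻¹ • x) * ρ (b⁻¹ • y) / ‖b⁻¹ • x - b⁻¹ • y‖) := by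
        congr 1
        funext y
        unfold sr
        rw [← smul_sub, norm_smul, Real.norm_eq_abs, abs_of_pos (inv_pos.2 hb)]
        rcases eq_or_ne ‖x - y‖ 0 with h0 | h0
        · rw [h0]; simp
        · field_simp
      refine f'.trans ((covc hb (a ^ 2 / b) (fun y => ρ (b⁻¹ • x) * ρ y / ‖b⁻¹ • x - y‖)).trans ?_)
      field_simp
    refine e'.trans ((covc hb (a ^ 2 * b ^ 2) (fun x => ∫ y, ρ x * ρ y / ‖x - y‖)).trans ?_)
    ring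
  unfold energy Pool.Agent.Helper99.TFW.energy
  rw [eK, eT, eV, eD]
  have k1 : c₂ * (s ^ 5 * b ^ 3) = c₁ * a * b := by
    rw [ha]
    linear_combination (s ^ 3 * b) * h2
  have k2 : a ^ 2 * b ^ 5 = c₁ * a * b := by
    linear_combination (a * b) * h1
  linear_combination (3 / 5 * ∫ x, ρ x ^ (5 / 3 : ℝ)) * k1 + (1 / 2 * ∫ x, ∫ y, ρ x * ρ y / ‖x - y‖) * k2

open Pool.Agent.helper95.TFWS in
/-- some mass above the nuclear charge has a minimizer -/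
theorem exists_mass (c₁ c₂ : ℝ) (hc₁ : 0 < c₁) (hc₂ : 0 < c₂) {k : ℕ} (hk : 1 ≤ k) (z : Fin k → ℝ)
    (hz : ∀ i, 0 < z i) (R : Fin k → E) : ∃ lam : ℝ, ∑ i, z i < lam ∧ HasSolution c₁ c₂ z R lam := by
  set s : ℝ := c₁ / c₂ ^ 2 with hs
  set a : ℝ := s ^ 3 with ha
  set b : ℝ := Real.sqrt (c₂ ^ 3 / c₁) with hbd
  have hs0 : 0 < s := by positivity
  have ha0 : 0 < a := by positivity
  have hb : 0 < b := Real.sqrt_pos.2 (by positivity)
  have hb2 : b ^ 2 = c₂ ^ 3 / c₁ := Real.sq_sqrt (by positivity)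
  have h1 : a * b ^ 4 = c₁ := by
    have : b ^ 4 = (b ^ 2) ^ 2 := by ring
    rw [this, hb2, ha, hs]
    field_simp
  have h2 : c₂ * s ^ 2 * b ^ 2 = c₁ := by
    rw [hb2, hs]
    field_simp
  have hz' : ∀ i, 0 < z i * (b / c₁) := fun i => mul_pos (hz i) (by positivity)
  obtain ⟨N, hN, ρ, g, hadm, hmass, hmin⟩ :=
    Pool.Agent.Helper99.TFW.critical_gt (R := fun i => b⁻¹ • R i) (show 0 < k by omega) hz'
  refine ⟨a * b ^ 3 * N, ?_, sr a b ρ, sg a b g, ofAdm (adm_scale ha0 hb hadm), ?_, ?_⟩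
  · rw [← Finset.sum_mul] at hN
    have h3 : (∑ i, z i) = a * b ^ 3 * ((∑ i, z i) * (b / c₁)) := by
      have h4 : a * b ^ 3 * (b / c₁) = 1 := by
        rw [← h1]
        field_simp
      calc (∑ i, z i) = (∑ i, z i) * 1 := by ring
        _ = _ := by rw [← h4]; ring
    rw [h3]
    exact mul_lt_mul_of_pos_left hN (by positivity)
  · rw [mass_scale hb ρ, hmass]
  · intro σ h hσ hσm
    have hσ' : Pool.Agent.Helper99.TFW.Adm (sr a⁻¹ b⁻¹ σ) (sg a⁻¹ b⁻¹ h) :=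
      adm_scale (inv_pos.2 ha0) (inv_pos.2 hb) (toAdm hσ)
    have hm : ∫ x, sr a⁻¹ b⁻¹ σ x = N := by
      rw [mass_scale (inv_pos.2 hb) σ, hσm]
      field_simp
    have h5 := hmin _ _ hσ' hm
    have h6 := energy_scale hs0 hb ha h1 h2 hc₁ z R (ρ := ρ) (g := g) hadm.nn
    have h7 := energy_scale hs0 hb ha h1 h2 hc₁ z R (ρ := sr a⁻¹ b⁻¹ σ) (g := sg a⁻¹ b⁻¹ h) hσ'.nn
    rw [sr_inv ha0 hb, sg_inv ha0 hb] at h7
    rw [h6, h7]
    exact mul_le_mul_of_nonneg_left h5 (by positivity)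

/-- **The critical electron number of a TFW molecule exceeds its nuclear charge**: `λ_c > Z` for `p = 5/3`, every number
`k ≥ 1` of nuclei, all charges and positions, and all positive constants `c₁, c₂`. -/
theorem result (k : ℕ) (hk : 1 ≤ k) (z : Fin k → ℝ) (hz : ∀ i, 0 < z i) (R : Fin k → E) (c₁ c₂ : ℝ)
    (hc₁ : 0 < c₁) (hc₂ : 0 < c₂) : ((∑ i, z i : ℝ) : EReal) < criticalNumber c₁ c₂ z R := by
  obtain ⟨lam, h1, h2⟩ := exists_mass c₁ c₂ hc₁ hc₂ hk z hz R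
  have h0 : 0 ≤ ∑ i, z i := Finset.sum_nonneg fun i _ => (hz i).le
  exact lt_of_lt_of_le (EReal.coe_lt_coe_iff.2 h1) (le_sSup ⟨lam, lt_of_le_of_lt h0 h1, h2, rfl⟩)

end Pool.Agent.Results.MP_3f6894_mp.CriticalNumber
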